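import Pool.Agent.PSS.StmtsS0
import Pool.Agent.PFC.B4.Key

/-!
# Squad PSS, block S0, row FPX: sums over an `H`-set modulo the Brauer kernel
-/

open scoped BigOperators TensorProduct

noncomputable section

namespace Pool.Agent.PSS.H20

open Pool.Agent.PFC (IsTv exTv)
open MulAction

theorem orb_BKR {R H M : Type} [CommRing R] [Group H] [Finite H] [AddCommGroup M] [Module R M]
    {ρ : H →* (M →ₗ[R] M)} {Ω : Type} [MulAction H Ω] (g : Ω → M) (P : Subgroup H)
    (hg : ∀ h ∈ P, ∀ ω, g (h • ω) = ρ h (g ω)) (T : Finset Ω)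
    (hT : ∀ ω ∈ T, ∀ h ∈ P, h • ω ∈ T) (hT2 : ∀ ω ∈ T, ¬ ∀ h ∈ P, h • ω = ω) :
    ∑ ω ∈ T, g ω ∈ BKR ρ P := by
  classical
  induction hn : T.card using Nat.strong_induction_on generalizing T with
  | _ n ih =>
    rcases T.eq_empty_or_nonempty with rfl | ⟨ω, hω⟩
    · rw [Finset.sum_empty]
      exact Submodule.zero_mem _
    · obtain ⟨S, hS, hinj, hsur⟩ := exTv P ω
      obtain ⟨O, hOd⟩ : ∃ O : Finset Ω, O = S.image (fun x => x • ω) := ⟨_, rfl⟩
      have hO : O ⊆ T := by
        intro y hy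
        rw [hOd] at hy
        obtain ⟨x, hx, rfl⟩ := Finset.mem_image.1 hy
        exact hT ω hω x (hS.1 x hx)
      have hOst : ∀ y ∈ O, ∀ h ∈ P, h • y ∈ O := by
        intro y hy h hh
        rw [hOd] at hy ⊢
        obtain ⟨x, hx, rfl⟩ := Finset.mem_image.1 hy
        obtain ⟨z, hz, hz2⟩ := hsur (h * x) (P.mul_mem hh (hS.1 x hx))
        refine Finset.mem_image.2 ⟨z, hz, ?_⟩
        rw [hz2, mul_smul]
      have hωO : ω ∈ O := by
        obtain ⟨z, hz, hz2⟩ := hsur 1 P.one_mem
        rw [hOd]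
        refine Finset.mem_image.2 ⟨z, hz, ?_⟩
        rw [hz2, one_smul]
      have hrest : ∑ ω ∈ T \ O, g ω ∈ BKR ρ P := by
        refine ih (T \ O).card ?_ (T \ O) ?_ ?_ rfl
        · rw [← hn]
          exact Finset.card_lt_card (Finset.sdiff_ssubset hO ⟨ω, hωO⟩)
        · intro y hy h hh
          rw [Finset.mem_sdiff] at hy ⊢
          refine ⟨hT y hy.1 h hh, fun hc => hy.2 ?_⟩
          have := hOst _ hc h⁻¹ (P.inv_mem hh)
          rwa [inv_smul_smul] at this
        · intro y hy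
          exact hT2 y (Finset.mem_sdiff.1 hy).1
      have horb : ∑ ω ∈ O, g ω ∈ BKR ρ P := by
        have h1 : ∑ ω ∈ O, g ω = ∑ x ∈ S, ρ x (g ω) := by
          rw [hOd, Finset.sum_image (by
            intro x hx y hy hxy
            exact hinj x hx y hy hxy)]
          refine Finset.sum_congr rfl ?_
          intro x hx
          exact hg x (hS.1 x hx) ω
        rw [h1]
        refine Submodule.subset_span ?_
        refine ⟨P ⊓ stabilizer H ω, S, g ω, ?_, hS, ?_, rfl⟩
        · refine lt_of_le_of_ne inf_le_left ?_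
          intro heq
          apply hT2 ω hω
          intro h hh
          have : h ∈ P ⊓ stabilizer H ω := by
            rw [heq]
            exact hh
          exact mem_stabilizer_iff.1 (Subgroup.mem_inf.1 this).2
        · intro h hh
          rw [← hg h (Subgroup.mem_inf.1 hh).1, mem_stabilizer_iff.1 (Subgroup.mem_inf.1 hh).2]
      rw [← Finset.sum_sdiff hO]
      exact Submodule.add_mem _ hrest horb

theorem fpx : S0.FpxStmt := by
  classical
  intro R H M K _ _ _ _ _ _ _ ρ P g K0 hg hK0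
  have h1 : ∑ κ, g κ - ∑ κ ∈ K0, g κ = ∑ κ ∈ Finset.univ \ K0, g κ := by
    rw [← Finset.sum_sdiff (Finset.subset_univ K0), add_sub_cancel_right]
  rw [h1]
  refine orb_BKR g P hg _ ?_ ?_
  · intro κ hκ h hh
    rw [Finset.mem_sdiff] at hκ ⊢
    refine ⟨Finset.mem_univ _, fun hc => hκ.2 ?_⟩
    rw [hK0] at hc ⊢
    have h2 : h⁻¹ • (h • κ) = h • κ := hc h⁻¹ (P.inv_mem hh)
    rw [inv_smul_smul] at h2
    intro k hk
    have h3 := hc k hk
    rw [← h2] at h3
    exact h3
  · intro κ hκ hc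
    exact (Finset.mem_sdiff.1 hκ).2 ((hK0 κ).2 hc)

end Pool.Agent.PSS.H20
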