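import Pool.Agent.PSS.StmtsS4
import Pool.Agent.PFC.B4.Key

/-!
# Squad PSS, block S4, row NFD: the dual frame of `N_W(A)`
-/

open scoped BigOperators TensorProduct

noncomputable section

namespace Pool.Agent.PSS.H20

open Pool.Agent.PFC (IsTv card_tv)
open Pool.Agent.PFD.D2b (FrR)

theorem pg_prod {ℓ : ℕ} {V : Type} [Group V] (hV : IsPGroup ℓ V) : IsPGroup ℓ (V × V) := by
  rintro ⟨u, v⟩
  obtain ⟨k, hk⟩ := hV u
  obtain ⟨j, hj⟩ := hV v
  refine ⟨k + j, Prod.ext ?_ ?_⟩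
  · show u ^ ℓ ^ (k + j) = 1
    rw [pow_add, pow_mul, hk, one_pow]
  · show v ^ ℓ ^ (k + j) = 1
    rw [add_comm, pow_add, pow_mul, hj, one_pow]

section gen

variable {R V A B Ω : Type} [CommRing R] [CommGroup V] [Fintype V] [Ring A] [Algebra R A]
  [Ring B] [Algebra R B] [Fintype Ω] [MulAction (V × V) Ω] {α : V →* A} {lam : A →ₗ[R] R}
  {b d : Ω → A} {W : Subgroup V}

omit [Fintype V] in
theorem fd_b (h : DFr R α lam b d) (ε : MulAut W) (ω : Fp Ω (twW W ε)) :
    b ω.1 ∈ FxR (bw R α) (twW W ε) := by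
  rw [mem_tw]
  intro w
  have h1 : (((ε w : V), (w : V)) : V × V) • ω.1 = ω.1 := ω.2 ⟨w, rfl⟩
  have h2 := h.eb (ε w : V) (w : V) ω.1
  rw [h1] at h2
  have h3 : b ω.1 * α (w : V) = α (ε w : V) * b ω.1 * α (w : V)⁻¹ * α (w : V) := by
    rw [← h2]
  rw [h3, mul_assoc (α (ε w : V) * b ω.1), ← map_mul, inv_mul_cancel, map_one, mul_one]

omit [Fintype V] in
theorem fd_d (h : DFr R α lam b d) (ε : MulAut W) (ω : Fp Ω (twW W ε)) :
    d ω.1 ∈ FxR (bw R α) (twW W ε⁻¹) := by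
  rw [mem_tw]
  intro w
  obtain ⟨w', hw'⟩ : ∃ w', w' = ε⁻¹ w := ⟨_, rfl⟩
  have h0 : ε w' = w := by
    rw [hw']
    exact MulAut.apply_inv_self W ε w
  have h1 : (((ε w' : V), (w' : V)) : V × V) • ω.1 = ω.1 := ω.2 ⟨w', rfl⟩
  have h2 := h.ed (ε w' : V) (w' : V) ω.1
  rw [h1, h0] at h2
  rw [← hw']
  have h3 : d ω.1 * α (w : V) = α (w' : V) * d ω.1 * α (w : V)⁻¹ * α (w : V) := by
    rw [← h2]
  rw [h3, mul_assoc (α (w' : V) * d ω.1), ← map_mul, inv_mul_cancel, map_one, mul_one]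

omit [Fintype V] in
/-- the functionals of a dual frame -/
theorem dfr_frame (h : DFr R α lam b d) :
    FrR (bw R α) b (fun ω => lam ∘ₗ LinearMap.mulLeft R (d ω)) := by
  refine ⟨?_, ?_, ?_⟩
  · rintro ⟨u, v⟩ ω
    rw [h.eb, mul_assoc]
    rfl
  · rintro ⟨u, v⟩ ω m
    show lam (d ((u, v) • ω) * (α u * (m * α v⁻¹))) = lam (d ω * m)
    rw [h.ed]
    have h1 : α v * d ω * α u⁻¹ * (α u * (m * α v⁻¹)) = α v * (d ω * m * α v⁻¹) := by
      have h2 : α u⁻¹ * (α u * (m * α v⁻¹)) = m * α v⁻¹ := by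
        rw [← mul_assoc, ← map_mul, inv_mul_cancel, map_one, one_mul]
      rw [mul_assoc, h2, mul_assoc, mul_assoc]
    rw [h1, h.sym, mul_assoc, ← map_mul, inv_mul_cancel, map_one, mul_one]
  · intro m
    exact h.sum m

/-- a symmetric form kills the Brauer kernel in degree `1` -/
theorem lam_BK {ℓ : ℕ} [Fact ℓ.Prime] (hl : (ℓ : R) = 0) (hV : IsPGroup ℓ V)
    (hs : ∀ a a', lam (a * a') = lam (a' * a)) {m : A}
    (hm : m ∈ BKR (bw R α) (twW W (1 : MulAut W))) : lam m = 0 := by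
  classical
  unfold BKR at hm
  induction hm using Submodule.span_induction with
  | mem n hn =>
    obtain ⟨P', S, x, hlt, hS, hx, rfl⟩ := hn
    have h1 : ∀ y ∈ S, lam (bw R α y x) = lam x := by
      intro y hy
      obtain ⟨w, rfl⟩ := hS.1 y hy
      show lam (α (w : V) * (x * α (w : V)⁻¹)) = lam x
      rw [hs, mul_assoc, ← map_mul, inv_mul_cancel, map_one, mul_one]
    rw [map_sum, Finset.sum_congr rfl h1, Finset.sum_const]
    have hP : IsPGroup ℓ (twW W (1 : MulAut W)) := (pg_prod hV).to_subgroup _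
    have hdvd : ℓ ∣ S.card := by
      have hc := card_tv P' (twW W (1 : MulAut W)) hlt.le S hS
      obtain ⟨k, hk⟩ := (IsPGroup.iff_card).1 hP
      have hdiv : S.card ∣ ℓ ^ k := ⟨_, by rw [← hk]; exact hc.symm⟩
      obtain ⟨j, -, hj⟩ := (Nat.dvd_prime_pow (Fact.out : ℓ.Prime)).1 hdiv
      rcases Nat.eq_zero_or_pos j with h0 | h0
      · exfalso
        rw [h0, pow_zero] at hj
        rw [hj, one_mul] at hc
        exact hlt.ne (Subgroup.eq_of_le_of_card_ge hlt.le hc.ge)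
      · rw [hj]
        exact dvd_pow_self ℓ h0.ne'
    obtain ⟨e, he⟩ := hdvd
    rw [he, mul_smul, nsmul_eq_mul, hl, zero_mul]
  | zero => exact map_zero _
  | add a b _ _ ha hb => rw [map_add, ha, hb, add_zero]
  | smul r a _ ha => rw [map_smul, ha, smul_zero]

theorem nw_ind (N : IsNW R α W B) (p : B → Prop) (h0 : p 0)
    (hadd : ∀ x y, p x → p y → p (x + y))
    (hb : ∀ ε, ∀ a ∈ FxR (bw R α) (twW W ε), p (N.β ε a)) : ∀ x, p x := by
  classical
  have : Finite (MulAut W) := Finite.of_injective (fun f => (f : W → W)) DFunLike.coe_injective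
  have : Fintype (MulAut W) := Fintype.ofFinite _
  intro x
  obtain ⟨f, hf, rfl⟩ := N.spn x
  rw [finsum_eq_sum_of_fintype]
  exact Finset.sum_induction _ p hadd h0 (fun ε _ => hb ε _ (hf ε))

/-- the form on `N_W(A)` -/
theorem nw_form {ℓ : ℕ} [Fact ℓ.Prime] (hl : (ℓ : R) = 0) (hV : IsPGroup ℓ V)
    (hs : ∀ a a', lam (a * a') = lam (a' * a)) (N : IsNW R α W B) :
    ∃ lam' : B →ₗ[R] R, (∀ a ∈ FxR (bw R α) (twW W (1 : MulAut W)), lam' (N.β 1 a) = lam a) ∧
      ∀ ε : MulAut W, ε ≠ 1 → ∀ a ∈ FxR (bw R α) (twW W ε), lam' (N.β ε a) = 0 := by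
  classical
  obtain ⟨g, hp, hk, hv⟩ := N.exists_hom
  have hs' : ∀ x, g (Function.surjInv hp x) = x := Function.surjInv_eq hp
  obtain ⟨L, hL⟩ : ∃ L : gsub R α W →ₗ[R] R, ∀ f, L f = lam (f.1.coeff 1) := by
    refine ⟨{ toFun := fun f => lam (f.1.coeff 1)
              map_add' := ?_
              map_smul' := ?_ }, fun f => rfl⟩
    · intro f f'
      rw [← map_add]
      rfl
    · intro r f
      rw [RingHom.id_apply, ← map_smul]
      rfl
  have heq : ∀ f f', g f = g f' → L f = L f' := by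
    intro f f' h
    have h1 : g (f - f') = 0 := by rw [map_sub, h, sub_self]
    have h2 : L (f - f') = 0 := by
      rw [hL]
      exact lam_BK hl hV hs ((hk _).1 h1 1)
    rw [map_sub] at h2
    exact sub_eq_zero.1 h2
  obtain ⟨lam', hlam'⟩ : ∃ lam' : B →ₗ[R] R, ∀ f, lam' (g f) = L f := by
    refine ⟨{ toFun := fun x => L (Function.surjInv hp x)
              map_add' := ?_
              map_smul' := ?_ }, fun f => heq _ _ (hs' _)⟩
    · intro x y
      rw [← map_add L]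
      exact heq _ _ (by rw [hs', map_add, hs', hs'])
    · intro r x
      rw [RingHom.id_apply, ← map_smul L]
      exact heq _ _ (by rw [hs', map_smul, hs'])
  refine ⟨lam', ?_, ?_⟩
  · intro a ha
    rw [← hv 1 ⟨a, ha⟩, hlam', hL]
    show lam ((MonoidAlgebra.single 1 (a : A)).coeff 1) = lam a
    rw [MonoidAlgebra.coeff_single, Finsupp.single_eq_same]
  · intro ε hε a ha
    rw [← hv ε ⟨a, ha⟩, hlam', hL]
    show lam ((MonoidAlgebra.single ε (a : A)).coeff 1) = 0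
    rw [MonoidAlgebra.coeff_single, Finsupp.single_apply, if_neg hε, map_zero]

end gen

theorem nfd (hF : FrbStmt) : NfdStmt := by
  classical
  intro ℓ _ R V A B Ω _ _ _ _ _ _ _ _ _ α lam b d W N _ hl hV h
  obtain ⟨lam', hl1, hl0⟩ := nw_form hl hV h.sym N
  have hVV : IsPGroup ℓ (V × V) := pg_prod hV
  refine ⟨lam', hl1, ?_⟩
  have hm1 : ∀ (u : V) (ε : MulAut W), ∀ a ∈ FxR (bw R α) (twW W ε), ∀ v : V,
      N.β ε (α u * a * α v) = N.nwh u * N.β ε a * N.nwh v := by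
    intro u ε a ha v
    have h1 := N.mul 1 ε (α u) (al_mem_tw u W) a ha
    have h2 := N.mul (1 * ε) 1 (α u * a) (Fx_mul α W 1 ε (al_mem_tw u W) ha) (α v)
      (al_mem_tw v W)
    rw [mul_one, one_mul] at h2
    rw [one_mul] at h1
    rw [h2, h1]
    rfl
  refine ⟨?_, ?_, ?_, ?_, ?_, ?_⟩
  · -- sym
    intro x y
    refine nw_ind N (fun x => lam' (x * y) = lam' (y * x)) ?_ ?_ ?_ x
    · show lam' (0 * y) = lam' (y * 0)
      rw [zero_mul, mul_zero]
    · intro x x' hx hx'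
      show lam' ((x + x') * y) = lam' (y * (x + x'))
      rw [add_mul, mul_add, map_add, map_add, hx, hx']
    · intro ε a ha
      refine nw_ind N (fun y => lam' (N.β ε a * y) = lam' (y * N.β ε a)) ?_ ?_ ?_ y
      · show lam' (N.β ε a * 0) = lam' (0 * N.β ε a)
        rw [zero_mul, mul_zero]
      · intro y y' hy hy'
        show lam' (N.β ε a * (y + y')) = lam' ((y + y') * N.β ε a)
        rw [add_mul, mul_add, map_add, map_add, hy, hy']
      · intro δ a' ha'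
        show lam' (N.β ε a * N.β δ a') = lam' (N.β δ a' * N.β ε a)
        rw [← N.mul ε δ a ha a' ha', ← N.mul δ ε a' ha' a ha]
        by_cases h1 : ε * δ = 1
        · have h2 : δ * ε = 1 := by
            rw [mul_eq_one_iff_eq_inv.1 h1, mul_inv_cancel]
          have h3 := Fx_mul α W ε δ ha ha'
          have h4 := Fx_mul α W δ ε ha' ha
          rw [h1] at h3
          rw [h2] at h4
          rw [h1, h2, hl1 _ h3, hl1 _ h4, h.sym]
        · have h2 : δ * ε ≠ 1 := by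
            intro h3
            apply h1
            rw [mul_eq_one_iff_eq_inv.1 h3, mul_inv_cancel]
          rw [hl0 _ h1 _ (Fx_mul α W ε δ ha ha'), hl0 _ h2 _ (Fx_mul α W δ ε ha' ha)]
  · -- eb
    rintro u v ⟨ε, ω⟩
    show N.β ε (b ((u, v) • ω.1)) = N.nwh u * N.β ε (b ω.1) * N.nwh v⁻¹
    rw [h.eb, hm1 u ε _ (fd_b h ε ω)]
  · -- ed
    rintro u v ⟨ε, ω⟩
    show N.β ε⁻¹ (d ((u, v) • ω.1)) = N.nwh v * N.β ε⁻¹ (d ω.1) * N.nwh u⁻¹
    rw [h.ed, hm1 v ε⁻¹ _ (fd_d h ε ω)]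
  · -- sum
    intro x
    refine nw_ind N (fun x => ∑ t : Σ ε : MulAut W, Fp Ω (twW W ε),
      lam' (N.β t.1⁻¹ (d t.2.1) * x) • N.β t.1 (b t.2.1) = x) ?_ ?_ ?_ x
    · refine Finset.sum_eq_zero fun t _ => ?_
      rw [mul_zero, map_zero, zero_smul]
    · intro x y hx hy
      show ∑ t : Σ ε : MulAut W, Fp Ω (twW W ε),
        lam' (N.β t.1⁻¹ (d t.2.1) * (x + y)) • N.β t.1 (b t.2.1) = x + y
      conv_rhs => rw [← hx, ← hy]
      rw [← Finset.sum_add_distrib]
      refine Finset.sum_congr rfl fun t _ => ?_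
      rw [mul_add, map_add, add_smul]
    · intro δ a ha
      show ∑ t : Σ ε : MulAut W, Fp Ω (twW W ε),
        lam' (N.β t.1⁻¹ (d t.2.1) * N.β δ a) • N.β t.1 (b t.2.1) = N.β δ a
      have h1 : ∑ ω : Fp Ω (twW W δ), lam (d ω.1 * a) • N.β δ (b ω.1) =
          ∑ t : Σ ε : MulAut W, Fp Ω (twW W ε),
            lam' (N.β t.1⁻¹ (d t.2.1) * N.β δ a) • N.β t.1 (b t.2.1) := by
        refine Fintype.sum_of_injective (fun ω : Fp Ω (twW W δ) =>
          (⟨δ, ω⟩ : Σ ε : MulAut W, Fp Ω (twW W ε))) ?_ _ _ ?_ ?_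
        · intro ω ω' hω
          exact eq_of_heq (Sigma.mk.inj hω).2
        · rintro ⟨ε, ω⟩ ht
          have hε : ε ≠ δ := by
            rintro rfl
            exact ht ⟨ω, rfl⟩
          have hne : ε⁻¹ * δ ≠ 1 := by
            intro h2
            apply hε
            exact inv_mul_eq_one.1 h2
          show lam' (N.β ε⁻¹ (d ω.1) * N.β δ a) • N.β ε (b ω.1) = 0
          rw [← N.mul ε⁻¹ δ _ (fd_d h ε ω) a ha,
            hl0 _ hne _ (Fx_mul α W ε⁻¹ δ (fd_d h ε ω) ha), zero_smul]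
        · intro ω
          show lam (d ω.1 * a) • N.β δ (b ω.1) =
            lam' (N.β δ⁻¹ (d ω.1) * N.β δ a) • N.β δ (b ω.1)
          have h3 := Fx_mul α W δ⁻¹ δ (fd_d h δ ω) ha
          rw [← N.mul δ⁻¹ δ _ (fd_d h δ ω) a ha, inv_mul_cancel, hl1]
          rw [inv_mul_cancel] at h3
          exact h3
      rw [← h1]
      have h2 := (hF ℓ R (V × V) A Ω (bw R α) b _ (twW W δ) hl (hVV.to_subgroup _)
        inferInstance (dfr_frame h)).2 a ha
      have h3 : a - ∑ ω : Fp Ω (twW W δ), lam (d ω.1 * a) • b ω.1 ∈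
          BKR (bw R α) (twW W δ) := h2
      have h4 : N.β δ (a - ∑ ω : Fp Ω (twW W δ), lam (d ω.1 * a) • b ω.1) = 0 := by
        refine (N.ker δ _ (Submodule.sub_mem _ ha (Submodule.sum_mem _ fun ω _ =>
          Submodule.smul_mem _ _ (fd_b h δ ω)))).2 h3
      rw [map_sub, sub_eq_zero, map_sum] at h4
      rw [h4]
      refine Finset.sum_congr rfl fun ω _ => ?_
      rw [map_smul]
  · rintro u ⟨ε, ω⟩ ht
    have h1 : ((u, 1) : V × V) • ω = ω := eq_of_heq (Sigma.mk.inj ht).2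
    exact h.fl u ω.1 (congrArg Subtype.val h1)
  · rintro v ⟨ε, ω⟩ ht
    have h1 : ((1, v) : V × V) • ω = ω := eq_of_heq (Sigma.mk.inj ht).2
    exact h.fr v ω.1 (congrArg Subtype.val h1)

end Pool.Agent.PSS.H20
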