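import Pool.Agent.PSS.StmtsS1a

/-!
# Squad PSS, row CSR: the dual families are a Casimir element over `V`
-/

open scoped BigOperators TensorProduct

noncomputable section

namespace Pool.Agent.PSS.H20

open Finset

theorem csr : CsrStmt := by
  intro k V A K X _ _ _ _ _ _ _ _ α lam x y h f hf a
  have key : ∀ j, ∑ i, ∑ v, lam (α v⁻¹ * y j * (a * x i)) • (α v * y i) = y j * a := by
    intro j
    rw [← h.e2 (y j * a)]
    refine Finset.sum_congr rfl fun i _ => ?_
    rw [← Equiv.sum_comp (Equiv.inv V)]
    refine Finset.sum_congr rfl fun v _ => ?_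
    rw [Equiv.inv_apply, inv_inv]
    congr 1
    rw [mul_assoc (α v), h.sym]
    simp only [mul_assoc]
  have h1 : ∀ i, f (a * x i) (y i) =
      ∑ j, ∑ v, lam (α v⁻¹ * y j * (a * x i)) • f (x j) (α v * y i) := by
    intro i
    conv_lhs => rw [← h.e1 (a * x i)]
    rw [map_sum, LinearMap.sum_apply]
    refine Finset.sum_congr rfl fun j _ => ?_
    rw [map_sum, LinearMap.sum_apply]
    refine Finset.sum_congr rfl fun v _ => ?_
    rw [map_smul, LinearMap.smul_apply, hf]
  calc ∑ i, f (a * x i) (y i)
      = ∑ i, ∑ j, ∑ v, lam (α v⁻¹ * y j * (a * x i)) • f (x j) (α v * y i) :=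
        Finset.sum_congr rfl fun i _ => h1 i
    _ = ∑ j, ∑ i, ∑ v, lam (α v⁻¹ * y j * (a * x i)) • f (x j) (α v * y i) := Finset.sum_comm
    _ = ∑ j, f (x j) (y j * a) := by
        refine Finset.sum_congr rfl fun j _ => ?_
        rw [← key j, map_sum]
        refine Finset.sum_congr rfl fun i _ => ?_
        rw [map_sum]
        refine Finset.sum_congr rfl fun v _ => ?_
        rw [map_smul]

end Pool.Agent.PSS.H20
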