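import Pool.Agent.PSS.StmtsS5

/-! Squad PSS, row FIT (500): an idempotent which is not local splits. -/

set_option autoImplicit false

namespace Pool.Agent.PSS.S5.H20

open Polynomial

theorem fit : FitStmt := by
  intro F A _ _ _ _ S j x hj hx hjj hnil hinv
  obtain ⟨r, hr0⟩ : ∃ r, r = j * x * j := ⟨_, rfl⟩
  rw [← hr0] at hnil hinv
  have hjr : j * r = r := by
    rw [hr0, ← mul_assoc, ← mul_assoc, hjj]
  have hrj : r * j = r := by
    rw [hr0, mul_assoc, hjj]
  have hrS : r ∈ S := by
    rw [hr0]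
    exact S.mul_mem (S.mul_mem hj hx) hj
  have haS : ∀ p : F[X], aeval r p ∈ S := by
    intro p
    have h1 : Algebra.adjoin F {r} ≤ S := Algebra.adjoin_le (by
      intro z hz
      rw [Set.mem_singleton_iff.1 hz]
      exact hrS)
    exact h1 (aeval_mem_adjoin_singleton F r)
  have hint : IsIntegral F r := IsIntegral.of_finite F r
  have hne : minpoly F r ≠ 0 := minpoly.ne_zero hint
  obtain ⟨g, hg, hg2⟩ := exists_eq_pow_rootMultiplicity_mul_and_not_dvd (minpoly F r) hne 0
  obtain ⟨k, hk⟩ : ∃ k, k = rootMultiplicity 0 (minpoly F r) := ⟨_, rfl⟩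
  rw [← hk, C_0, sub_zero] at hg
  rw [C_0, sub_zero] at hg2
  have hcop : IsCoprime ((X : F[X]) ^ (k + 1)) g :=
    ((irreducible_X.coprime_iff_not_dvd).2 hg2).pow_left
  obtain ⟨a, b, hab⟩ := hcop
  have h0 : r ^ k * aeval r g = 0 := by
    have h := minpoly.aeval F r
    rw [hg, map_mul, map_pow, aeval_X] at h
    exact h
  have h1 : aeval r a * r ^ (k + 1) + aeval r b * aeval r g = 1 := by
    have h := congrArg (aeval r) hab
    rw [map_add, map_mul, map_mul, map_pow, aeval_X, map_one] at h
    exact h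
  have hc : ∀ p q : F[X], aeval r p * aeval r q = aeval r q * aeval r p := by
    intro p q
    rw [← map_mul, mul_comm, map_mul]
  have hr : ∀ (p : F[X]) (n : ℕ), aeval r p * r ^ n = r ^ n * aeval r p := by
    intro p n
    have h := hc p (X ^ n)
    rw [map_pow, aeval_X] at h
    exact h
  have he : r * (aeval r a * r ^ k) = aeval r a * r ^ (k + 1) := by
    have h := hr a 1
    rw [pow_one] at h
    rw [← mul_assoc, ← h, mul_assoc, ← pow_succ']
  have he' : aeval r a * r ^ k * r = aeval r a * r ^ (k + 1) := by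
    rw [mul_assoc, ← pow_succ]
  have hid : aeval r a * r ^ (k + 1) * (aeval r a * r ^ (k + 1)) = aeval r a * r ^ (k + 1) := by
    have h2 : aeval r a * r ^ (k + 1) * (aeval r b * aeval r g) = 0 := by
      rw [hc b g, pow_succ']
      calc aeval r a * (r * r ^ k) * (aeval r g * aeval r b)
          = aeval r a * r * (r ^ k * aeval r g) * aeval r b := by noncomm_ring
        _ = 0 := by rw [h0, mul_zero, zero_mul]
    have h3 : aeval r a * r ^ (k + 1) * (aeval r a * r ^ (k + 1)) +
        aeval r a * r ^ (k + 1) * (aeval r b * aeval r g) = aeval r a * r ^ (k + 1) := by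
      rw [← mul_add, h1, mul_one]
    rw [h2, add_zero] at h3
    exact h3
  have hjl : j * (aeval r a * r ^ (k + 1)) = aeval r a * r ^ (k + 1) := by
    rw [← he, ← mul_assoc, hjr]
  have hjr' : aeval r a * r ^ (k + 1) * j = aeval r a * r ^ (k + 1) := by
    rw [← he', mul_assoc, hrj]
  refine ⟨aeval r a * r ^ (k + 1), S.mul_mem (haS a) (S.pow_mem hrS _), hid, hjl, hjr', ?_, ?_⟩
  · intro hz
    rw [hz, zero_add] at h1
    apply hnil
    refine ⟨k, ?_⟩
    calc r ^ k = r ^ k * (aeval r b * aeval r g) := by rw [h1, mul_one]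
      _ = r ^ k * aeval r g * aeval r b := by rw [hc b g, mul_assoc]
      _ = 0 := by rw [h0, zero_mul]
  · intro hz
    apply hinv
    refine ⟨aeval r a * r ^ k, S.mul_mem (haS a) (S.pow_mem hrS _), ?_, ?_⟩
    · calc r * (j * (aeval r a * r ^ k) * j) = r * j * (aeval r a * r ^ k) * j := by noncomm_ring
        _ = r * (aeval r a * r ^ k) * j := by rw [hrj]
        _ = j := by rw [he, hz, hjj]
    · calc j * (aeval r a * r ^ k) * j * r = j * (aeval r a * r ^ k) * (j * r) := by noncomm_ring
        _ = j * (aeval r a * r ^ k * r) := by rw [hjr, mul_assoc]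
        _ = j := by rw [he', hz, hjj]

end Pool.Agent.PSS.S5.H20
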