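import Pool.Agent.PSS.StmtsS1b

/-!
# Squad PSS, row HCC: the contraction with the Casimir families
-/

open scoped BigOperators TensorProduct

noncomputable section

namespace Pool.Agent.PSS.H20

open Pool.Agent.PFD.D2b (FrR)
open Finset

theorem hcc : HccStmt := by
  intro R K V A B κ Ω _ _ _ _ _ _ _ _ _ _ _ _ _ _ W α lam x y b c C κ' _ u v hcs cc hW hN hdl hv
  obtain ⟨P, hP⟩ : ∃ P : Submodule R B, ∀ x, x ∈ P ↔ In C.i x :=
    ⟨LinearMap.range C.i.toLinearMap, fun x => Iff.rfl⟩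
  have hPl : ∀ (a : A) (t : B), t ∈ P → C.i a * t ∈ P := by
    intro a t ht
    obtain ⟨s, rfl⟩ := (hP t).1 ht
    exact (hP _).2 ⟨a * s, by rw [map_mul]⟩
  have hPr : ∀ (a : A) (t : B), t ∈ P → t * C.i a ∈ P := by
    intro a t ht
    obtain ⟨s, rfl⟩ := (hP t).1 ht
    exact (hP _).2 ⟨s * a, by rw [map_mul]⟩
  have hs1 : ∀ (r : R) (p q : B), cc (r • p) q = r • cc p q := by
    intro r p q
    rw [← C.tow r p, map_smul, LinearMap.smul_apply, C.tow]
  have hs2 : ∀ (r : R) (p q : B), cc p (r • q) = r • cc p q := by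
    intro r p q
    rw [← C.tow r q, map_smul, C.tow]
  have hd : ∀ a₁ a₂ a₃ : A, C.i a₁ * cc (C.i a₂) (C.i a₃) - cc (C.i (a₁ * a₂)) (C.i a₃) +
      cc (C.i a₁) (C.i (a₂ * a₃)) - cc (C.i a₁) (C.i a₂) * C.i a₃ ∈ P := by
    intro a₁ a₂ a₃
    rw [hP, map_mul C.i, map_mul C.i]
    exact hdl a₁ a₂ a₃
  -- (A)
  have hA : ∀ (g : V) (p a₀ : A),
      C.i (α g) * cc (C.i p) (C.i a₀) - cc (C.i (α g * p)) (C.i a₀) ∈ P := by
    intro g p a₀
    have h1 := hd (α g) p a₀
    have h2 : cc (C.i (α g)) (C.i (p * a₀)) ∈ P := (hP _).2 (hv g (p * a₀))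
    have h3 : cc (C.i (α g)) (C.i p) * C.i a₀ ∈ P := hPr _ _ ((hP _).2 (hv g p))
    have h4 := P.sub_mem (P.add_mem h1 h3) h2
    have h5 : C.i (α g) * cc (C.i p) (C.i a₀) - cc (C.i (α g * p)) (C.i a₀) =
        C.i (α g) * cc (C.i p) (C.i a₀) - cc (C.i (α g * p)) (C.i a₀) +
        cc (C.i (α g)) (C.i (p * a₀)) - cc (C.i (α g)) (C.i p) * C.i a₀ +
        cc (C.i (α g)) (C.i p) * C.i a₀ - cc (C.i (α g)) (C.i (p * a₀)) := by
      abel
    rw [h5]
    exact h4
  -- (B)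
  have hB : ∀ (a a₀ : A), ∑ i, C.i (a * u i) * cc (C.i (v i)) (C.i a₀) -
      ∑ i, C.i (u i) * cc (C.i (v i * a)) (C.i a₀) ∈ P := by
    intro a a₀
    obtain ⟨f, hf⟩ : ∃ f : A →ₗ[R] A →ₗ[R] (B ⧸ P), ∀ p q,
        f p q = P.mkQ (C.i p * cc (C.i q) (C.i a₀)) := by
      refine ⟨LinearMap.mk₂ R (fun p q => P.mkQ (C.i p * cc (C.i q) (C.i a₀))) ?_ ?_ ?_ ?_,
        fun p q => rfl⟩
      · intro p p' q
        rw [map_add, add_mul, map_add]
      · intro r p q
        rw [map_smul, smul_mul_assoc, map_smul]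
      · intro p q q'
        rw [map_add, map_add, LinearMap.add_apply, mul_add, map_add]
      · intro r p q
        rw [map_smul, hs1, mul_smul_comm, map_smul]
    have h1 := hcs.2 (B ⧸ P) f (by
      intro p g q
      rw [hf, hf, ← sub_eq_zero, ← map_sub, Submodule.mkQ_apply, Submodule.Quotient.mk_eq_zero,
        map_mul C.i, mul_assoc, ← mul_sub]
      exact hPl _ _ (hA g q a₀)) a
    simp only [hf] at h1
    rw [← map_sum, ← map_sum, ← sub_eq_zero, ← map_sub, Submodule.mkQ_apply,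
      Submodule.Quotient.mk_eq_zero] at h1
    exact h1
  obtain ⟨g, hg⟩ : ∃ g : A →ₗ[R] B, ∀ a, g a = ∑ i, C.i (u i) * cc (C.i (v i)) (C.i a) := by
    refine ⟨{ toFun := fun a => ∑ i, C.i (u i) * cc (C.i (v i)) (C.i a)
              map_add' := ?_
              map_smul' := ?_ }, fun a => rfl⟩
    · intro a a'
      rw [← Finset.sum_add_distrib]
      refine Finset.sum_congr rfl fun i _ => ?_
      rw [map_add, map_add, mul_add]
    · intro r a
      rw [RingHom.id_apply, Finset.smul_sum]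
      refine Finset.sum_congr rfl fun i _ => ?_
      rw [map_smul, hs2, mul_smul_comm]
  refine ⟨g, ?_, ?_, ?_⟩
  · intro w hw a
    constructor
    · rw [← hP]
      have h1 := P.neg_mem (hB (α w) a)
      have h2 : ∑ i, C.i (α w * u i) * cc (C.i (v i)) (C.i a) = C.i (α w) * g a := by
        rw [hg, Finset.mul_sum]
        refine Finset.sum_congr rfl fun i _ => ?_
        rw [map_mul, mul_assoc]
      have h3 : ∑ i, C.i (u i) * cc (C.i (v i * α w)) (C.i a) = g (α w * a) := by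
        rw [hg]
        refine Finset.sum_congr rfl fun i _ => ?_
        have h4 : cc (C.i (v i) * C.i (α w)) (C.i a) = cc (C.i (v i)) (C.i (α w) * C.i a) :=
          (hW w hw (C.i (v i)) (C.i a)).2.1
        rw [map_mul C.i, map_mul C.i, h4]
      rw [h2, h3, neg_sub] at h1
      exact h1
    · refine ⟨0, ?_⟩
      rw [map_zero, hg, hg, Finset.sum_mul, ← Finset.sum_sub_distrib]
      symm
      refine Finset.sum_eq_zero fun i _ => ?_
      have h4 : cc (C.i (v i)) (C.i a * C.i (α w)) = cc (C.i (v i)) (C.i a) * C.i (α w) :=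
        (hW w hw (C.i (v i)) (C.i a)).2.2
      rw [map_mul C.i, h4, mul_assoc, sub_self]
  · refine ⟨0, ?_⟩
    rw [map_zero, hg]
    symm
    refine Finset.sum_eq_zero fun i _ => ?_
    have h4 : cc (C.i (v i)) 1 = 0 := hN.2 _
    rw [map_one, h4, mul_zero]
  · intro a₁ a₂
    rw [← hP]
    have h1 := hB a₁ a₂
    have h2 : ∑ i, C.i (a₁ * u i) * cc (C.i (v i)) (C.i a₂) = C.i a₁ * g a₂ := by
      rw [hg, Finset.mul_sum]
      refine Finset.sum_congr rfl fun i _ => ?_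
      rw [map_mul, mul_assoc]
    rw [h2] at h1
    have h3 : ∑ i, C.i (u i) * (C.i (v i) * cc (C.i a₁) (C.i a₂) -
        cc (C.i (v i * a₁)) (C.i a₂) + cc (C.i (v i)) (C.i (a₁ * a₂)) -
        cc (C.i (v i)) (C.i a₁) * C.i a₂) ∈ P :=
      P.sum_mem fun i _ => hPl _ _ (hd (v i) a₁ a₂)
    have h4 : ∑ i, C.i (u i) * (C.i (v i) * cc (C.i a₁) (C.i a₂) -
        cc (C.i (v i * a₁)) (C.i a₂) + cc (C.i (v i)) (C.i (a₁ * a₂)) -
        cc (C.i (v i)) (C.i a₁) * C.i a₂) = cc (C.i a₁) (C.i a₂) -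
        ∑ i, C.i (u i) * cc (C.i (v i * a₁)) (C.i a₂) + g (a₁ * a₂) - g a₁ * C.i a₂ := by
      have h5 : cc (C.i a₁) (C.i a₂) = ∑ i, C.i (u i) * (C.i (v i) * cc (C.i a₁) (C.i a₂)) := by
        have h6 : (1 : B) = ∑ i, C.i (u i) * C.i (v i) := by
          rw [← map_one C.i, ← hcs.1, map_sum]
          refine Finset.sum_congr rfl fun i _ => ?_
          rw [map_mul]
        calc cc (C.i a₁) (C.i a₂) = 1 * cc (C.i a₁) (C.i a₂) := (one_mul _).symm
          _ = ∑ i, C.i (u i) * (C.i (v i) * cc (C.i a₁) (C.i a₂)) := by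
            rw [h6, Finset.sum_mul]
            refine Finset.sum_congr rfl fun i _ => ?_
            rw [mul_assoc]
      have h7 : g a₁ * C.i a₂ = ∑ i, C.i (u i) * (cc (C.i (v i)) (C.i a₁) * C.i a₂) := by
        rw [hg, Finset.sum_mul]
        refine Finset.sum_congr rfl fun i _ => ?_
        rw [mul_assoc]
      rw [h7, hg]
      nth_rewrite 2 [h5]
      rw [← Finset.sum_sub_distrib, ← Finset.sum_add_distrib, ← Finset.sum_sub_distrib]
      refine Finset.sum_congr rfl fun i _ => ?_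
      rw [mul_sub, mul_add, mul_sub]
    rw [h4] at h3
    have h8 := P.sub_mem h3 h1
    have h9 : cc (C.i a₁) (C.i a₂) - (C.i a₁ * g a₂ - g (a₁ * a₂) + g a₁ * C.i a₂) =
        cc (C.i a₁) (C.i a₂) - ∑ i, C.i (u i) * cc (C.i (v i * a₁)) (C.i a₂) + g (a₁ * a₂) -
        g a₁ * C.i a₂ - (C.i a₁ * g a₂ - ∑ i, C.i (u i) * cc (C.i (v i * a₁)) (C.i a₂)) := by
      abel
    rw [h9]
    exact h8

end Pool.Agent.PSS.H20
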