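import Pool.Agent.PSS.StmtsS1c

/-!
# Squad PSS, row TRX: strong recursion
-/

open scoped BigOperators TensorProduct

noncomputable section

namespace Pool.Agent.PSS.H20

open Finset

variable {K B : Type} [Field K] [Ring B] [Algebra K B]

/-- the coefficients of the transported multiplication -/
noncomputable def mm (P : ℕ → (B →ₗ[K] B)) (n : ℕ) : B →ₗ[K] B →ₗ[K] B :=
  (∑ p ∈ antidiagonal n, (LinearMap.mul K B).compl₁₂ (P p.1) (P p.2)) -
    ∑ j : Fin n, (mm P j).compr₂ (P (n - j))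
termination_by n
decreasing_by exact j.2

theorem mm_apply (P : ℕ → (B →ₗ[K] B)) (n : ℕ) (x y : B) :
    mm P n x y = ∑ p ∈ antidiagonal n, P p.1 x * P p.2 y -
      ∑ j ∈ range n, P (n - j) (mm P j x y) := by
  conv_lhs => rw [mm]
  rw [LinearMap.sub_apply, LinearMap.sub_apply, LinearMap.sum_apply, LinearMap.sum_apply,
    LinearMap.sum_apply, LinearMap.sum_apply]
  congr 1
  rw [← Fin.sum_univ_eq_sum_range (fun j => P (n - j) (mm P j x y))]
  rfl

theorem trx : TrxStmt := by
  intro K V B _ _ _ _ β W P h0 hW h1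
  refine ⟨mm P, h0, hW, h1, ?_⟩
  intro n x y
  have h2 : ∑ p ∈ antidiagonal n, P p.1 (mm P p.2 x y) =
      ∑ j ∈ range n, P (n - j) (mm P j x y) + mm P n x y := by
    rw [← Finset.Nat.sum_antidiagonal_swap]
    have h3 := Finset.Nat.sum_antidiagonal_eq_sum_range_succ
      (fun i j => P j (mm P i x y)) n
    have h4 : ∑ p ∈ antidiagonal n, P p.swap.1 (mm P p.swap.2 x y) =
        ∑ p ∈ antidiagonal n, P p.2 (mm P p.1 x y) := rfl
    rw [h4, h3, Finset.sum_range_succ, Nat.sub_self, h0]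
    rfl
  rw [h2, mm_apply]
  abel

end Pool.Agent.PSS.H20
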